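import Pool.Agent.N112.WM.Stm3
import Pool.Agent.N621.WM.Weak
set_option autoImplicit false

/-! Project WM, WM10 (helper498, for helper112; adapted from Pool/Agent/N621/WM/Weak.lean): descent
from `A` to the finite subgroup, arbitrary torsion. -/

namespace Pool.Agent.N498.WM

open Finset
open scoped Pointwise
open Pool.Agent.N621.WM (plu num_rank)
open Pool.Agent

universe u

/-- **WM10.** -/
theorem weakW (hfin : Pool.Agent.N112.WM.StmFinW.{u}) : Pool.Agent.N112.WM.StmWeakW.{u} := by
  intro G _ _ K A η p₀ hA hK hη0 hη1 hp₀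
  classical
  obtain ⟨r, B, θ, P, T, hr, hB, hPfin, hvol, hT, hcov⟩ := W860.PC.poly_cover hA hK hη0 hη1
  have hApos : (0 : ℝ) < A.card := by exact_mod_cast hA.card_pos
  have hK1 : 1 ≤ K := by
    have h1 : (A.card : ℝ) ≤ (A + A).card := by
      exact_mod_cast Finset.card_le_card_add_right hA
    nlinarith
  obtain ⟨κ, hκ⟩ : ∃ κ : ℝ, κ = Real.log (2 * K) := ⟨_, rfl⟩
  rw [← hκ] at hr hvol ⊢
  have hκlog2 : Real.log 2 ≤ κ := by
    rw [hκ]; exact Real.log_le_log (by norm_num) (by linarith)
  have hlog2 : (0.69 : ℝ) < Real.log 2 := by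
    have := Real.log_two_gt_d9
    linarith
  have hκ69 : (0.69 : ℝ) < κ := by linarith
  have hκ0 : 0 < κ := by linarith
  have hp1 : (1 : ℝ) < p₀ := by exact_mod_cast (by omega : 1 < p₀)
  have hp2 : (2 : ℝ) ≤ p₀ := by exact_mod_cast hp₀
  have hlp : (0.69 : ℝ) < Real.log p₀ := lt_of_lt_of_le hlog2 (Real.log_le_log (by norm_num) hp2)
  -- the integer points
  have hlatfin : {c : Fin r → ℤ | (fun i => (c i : ℝ)) ∈ B}.Finite :=
    Pool.Agent.Y806.DF.lat_finite hB.2.1.isBounded
  have hlat : 1 ≤ {c : Fin r → ℤ | (fun i => (c i : ℝ)) ∈ B}.ncard := by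
    rw [Nat.one_le_iff_ne_zero, ← Nat.pos_iff_ne_zero, Set.ncard_pos hlatfin]
    refine ⟨0, ?_⟩
    obtain ⟨hc, -, ⟨y, hy⟩, hs⟩ := hB
    have hy' : y ∈ B := interior_subset hy
    have h5 := hc hy' (hs y hy') (a := 1 / 2) (b := 1 / 2) (by norm_num) (by norm_num) (by norm_num)
    have e : (fun i => (((0 : Fin r → ℤ) i : ℤ) : ℝ)) = 0 := by funext i; simp
    show (fun i => (((0 : Fin r → ℤ) i : ℤ) : ℝ)) ∈ B
    rw [e]
    simpa using h5
  obtain ⟨nl, hnl⟩ : ∃ nl, nl = {c : Fin r → ℤ | (fun i => (c i : ℝ)) ∈ B}.ncard := ⟨_, rfl⟩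
  rw [← hnl] at hvol hlat
  obtain ⟨Λ, hΛ⟩ : ∃ Λ : ℝ, Λ = Real.exp (30000 / η * κ ^ (1 + η)) := ⟨_, rfl⟩
  rw [← hΛ] at hvol
  have hΛ0 : 0 < Λ := by rw [hΛ]; exact Real.exp_pos _
  -- the quotient
  set q : G → G ⧸ P := QuotientAddGroup.mk with hq
  set πA : Finset (G ⧸ P) := A.image q with hπA
  have hπne : πA.Nonempty := hA.image _
  have hqeq : ∀ a b : G, q a = q b ↔ -a + b ∈ P := fun a b => QuotientAddGroup.eq
  -- the number of cosets
  have hN : πA.card ≤ T.card * nl := by
    have h1 : πA ⊆ (T ×ˢ hlatfin.toFinset).image (fun x => q (x.1 + θ x.2)) := by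
      intro y hy
      obtain ⟨a, ha, rfl⟩ := Finset.mem_image.1 hy
      obtain ⟨t, ht, v, hv, h, hh, e⟩ := hcov a ha
      refine Finset.mem_image.2 ⟨(t, v), ?_, ?_⟩
      · rw [Finset.mem_product]
        exact ⟨ht, hlatfin.mem_toFinset.2 hv⟩
      · rw [hqeq, e]
        have : -(t + θ v) + (t + θ v + h) = h := by abel
        rw [this]
        exact hh
    refine (Finset.card_le_card h1).trans (Finset.card_image_le.trans ?_)
    rw [Finset.card_product, hnl, Set.ncard_eq_toFinset_card _ hlatfin]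
  -- the largest fibre
  obtain ⟨y₀, hy₀, hmax⟩ := Finset.exists_max_image πA (fun y => (A.filter (fun a => q a = y)).card) hπne
  set A1 : Finset G := A.filter (fun a => q a = y₀) with hA1
  have hAM : A.card ≤ πA.card * A1.card := by
    have h1 : A.card = ∑ y ∈ πA, (A.filter (fun a => q a = y)).card :=
      Finset.card_eq_sum_card_fiberwise (fun a ha => Finset.mem_image_of_mem _ ha)
    rw [h1]
    calc ∑ y ∈ πA, (A.filter (fun a => q a = y)).card ≤ ∑ _y ∈ πA, A1.card :=
          Finset.sum_le_sum (fun y hy => hmax y hy)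
      _ = πA.card * A1.card := by rw [Finset.sum_const, smul_eq_mul]
  obtain ⟨a₁, ha₁, hqa₁⟩ := Finset.mem_image.1 hy₀
  -- the set `D`
  have : Fintype P := Fintype.ofFinite P
  set D : Finset P := Finset.univ.filter (fun p : P => (p : G) ∈ A - A) with hD
  set DG : Finset G := D.image (fun p : P => (p : G)) with hDG
  have hinj : Function.Injective (fun p : P => (p : G)) := Subtype.val_injective
  have hDGcard : DG.card = D.card := Finset.card_image_of_injective _ hinj
  have hDGsub : DG ⊆ A - A := by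
    intro x hx
    obtain ⟨p, hp, rfl⟩ := Finset.mem_image.1 hx
    exact (Finset.mem_filter.1 hp).2
  have hD1 : A1.card ≤ D.card := by
    have h1 : A1.image (fun a => a - a₁) ⊆ DG := by
      intro x hx
      obtain ⟨a, ha, rfl⟩ := Finset.mem_image.1 hx
      rw [hA1, Finset.mem_filter] at ha
      have h2 : a - a₁ ∈ P := by
        have h3 : q a₁ = q a := by rw [hqa₁, ha.2]
        rw [hqeq] at h3
        have e : a - a₁ = -a₁ + a := by abel
        rw [e]; exact h3
      refine Finset.mem_image.2 ⟨⟨a - a₁, h2⟩, ?_, rfl⟩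
      rw [hD, Finset.mem_filter]
      exact ⟨Finset.mem_univ _, Finset.sub_mem_sub ha.1 ha₁⟩
    have h2 := Finset.card_le_card h1
    rw [Finset.card_image_of_injective _ (fun a b h => by simpa using h), hDGcard] at h2
    exact h2
  have hDne : D.Nonempty := by
    refine ⟨0, ?_⟩
    rw [hD, Finset.mem_filter]
    refine ⟨Finset.mem_univ _, ?_⟩
    obtain ⟨a, ha⟩ := hA
    have : ((0 : P) : G) = a - a := by simp
    rw [this]
    exact Finset.sub_mem_sub ha ha
  have hDpos : (0 : ℝ) < D.card := by exact_mod_cast hDne.card_pos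
  -- section argument
  have hsec : ∀ D2 : Finset P, πA.card * D2.card ≤ (A + D2.image (fun p : P => (p : G))).card := by
    intro D2
    have hch : ∀ y : πA, ∃ a ∈ A, q a = y.1 := fun y => by
      obtain ⟨a, ha, h⟩ := Finset.mem_image.1 y.2
      exact ⟨a, ha, h⟩
    choose s hs1 hs2 using hch
    have h1 : ((Finset.univ : Finset πA) ×ˢ D2).image (fun x => s x.1 + (x.2 : G)) ⊆
        A + D2.image (fun p : P => (p : G)) := by
      intro x hx
      obtain ⟨⟨y, p⟩, hyp, rfl⟩ := Finset.mem_image.1 hx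
      rw [Finset.mem_product] at hyp
      exact Finset.add_mem_add (hs1 y) (Finset.mem_image_of_mem _ hyp.2)
    have h2 := Finset.card_le_card h1
    rw [Finset.card_image_of_injective, Finset.card_product, Finset.card_univ,
      Fintype.card_coe] at h2
    · exact h2
    · rintro ⟨y, p⟩ ⟨y', p'⟩ h
      simp only at h
      have hq1 : ∀ (z : πA) (u : P), q (s z + (u : G)) = z.1 := by
        intro z u
        rw [← hs2 z, hqeq]
        have e : -(s z + (u : G)) + s z = -(u : G) := by abel
        rw [e]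
        exact P.neg_mem u.2
      have h3 : y = y' := by
        apply Subtype.ext
        rw [← hq1 y p, ← hq1 y' p', h]
      subst h3
      have h4 : (p : G) = p' := add_left_cancel h
      rw [Subtype.ext h4]
  have hπpos : (0 : ℝ) < πA.card := by exact_mod_cast hπne.card_pos
  -- doubling of `D`
  have hDD : ((D + D).card : ℝ) ≤ K ^ 5 * D.card := by
    have h1 : (A + (D + D).image (fun p : P => (p : G))) ⊆ (3 : ℕ) • A - (2 : ℕ) • A := by
      intro x hx
      obtain ⟨a, ha, z, hz, rfl⟩ := Finset.mem_add.1 hx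
      obtain ⟨p, hp, rfl⟩ := Finset.mem_image.1 hz
      obtain ⟨p1, hp1, p2, hp2, rfl⟩ := Finset.mem_add.1 hp
      obtain ⟨b1, hb1, c1, hc1, e1⟩ := Finset.mem_sub.1 (Finset.mem_filter.1 hp1).2
      obtain ⟨b2, hb2, c2, hc2, e2⟩ := Finset.mem_sub.1 (Finset.mem_filter.1 hp2).2
      have e3 : (3 : ℕ) • A = A + A + A := by
        rw [show (3 : ℕ) = 2 + 1 by norm_num, succ_nsmul, two_nsmul]
      rw [e3, two_nsmul]
      refine Finset.mem_sub.2 ⟨a + b1 + b2, Finset.add_mem_add (Finset.add_mem_add ha hb1) hb2,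
        c1 + c2, Finset.add_mem_add hc1 hc2, ?_⟩
      rw [AddSubgroup.coe_add, ← e1, ← e2]
      abel
    have h2 : (πA.card : ℝ) * (D + D).card ≤ K ^ 5 * A.card := by
      have h3 : ((πA.card * (D + D).card : ℕ) : ℝ) ≤
          (((3 : ℕ) • A - (2 : ℕ) • A).card : ℝ) := by
        exact_mod_cast (hsec (D + D)).trans (Finset.card_le_card h1)
      have h4 := plu hA hK 3 2
      push_cast at h3
      exact h3.trans h4
    have h3 : (A.card : ℝ) ≤ πA.card * D.card := by
      have h4 : (A.card : ℝ) ≤ πA.card * A1.card := by exact_mod_cast hAM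
      refine h4.trans ?_
      apply mul_le_mul_of_nonneg_left _ hπpos.le
      exact_mod_cast hD1
    have h5 : (πA.card : ℝ) * (D + D).card ≤ πA.card * (K ^ 5 * D.card) := by
      refine h2.trans ?_
      calc K ^ 5 * (A.card : ℝ) ≤ K ^ 5 * (πA.card * D.card) :=
            mul_le_mul_of_nonneg_left h3 (by positivity)
        _ = _ := by ring
    exact le_of_mul_le_mul_left h5 hπpos
  have hTpos : (0 : ℝ) < T.card := by
    have : T.Nonempty := by
      obtain ⟨a, ha⟩ := hA
      obtain ⟨t, ht, -⟩ := hcov a ha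
      exact ⟨t, ht⟩
    exact_mod_cast this.card_pos
  have hnlpos : (0 : ℝ) < nl := by exact_mod_cast hlat
  -- size of `P`
  have hP : (Nat.card P : ℝ) ≤ Λ * T.card * D.card := by
    have h1 : (A.card : ℝ) ≤ T.card * nl * D.card := by
      have h4 : (A.card : ℝ) ≤ πA.card * A1.card := by exact_mod_cast hAM
      refine h4.trans ?_
      have h5 : (πA.card : ℝ) ≤ T.card * nl := by exact_mod_cast hN
      have h6 : (A1.card : ℝ) ≤ D.card := by exact_mod_cast hD1
      exact mul_le_mul h5 h6 (by positivity) (by positivity)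
    have h2 : (nl : ℝ) * Nat.card P ≤ nl * (Λ * T.card * D.card) := by
      have h3 : ((nl * Nat.card P : ℕ) : ℝ) ≤ Λ * A.card := hvol
      push_cast at h3
      refine h3.trans ?_
      calc Λ * (A.card : ℝ) ≤ Λ * (T.card * nl * D.card) := mul_le_mul_of_nonneg_left h1 hΛ0.le
        _ = _ := by ring
    exact le_of_mul_le_mul_left h2 hnlpos
  have hK5 : (1 : ℝ) ≤ K ^ 5 := one_le_pow₀ hK1
  obtain ⟨H₀, SP, hH1, hS1, hgen⟩ := hfin P D (K ^ 5) (Λ * T.card) η p₀ hDne hDD hK5 hP hη0 hη1
    hp₀
  -- the subgroup and the generators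
  set H : AddSubgroup G := H₀.map P.subtype with hHdef
  set S : Finset G := SP.image (fun p : P => (p : G)) ∪
    Finset.univ.image (fun i : Fin r => θ (Pi.single i 1)) with hSdef
  have hHset : (H : Set G) = (fun p : P => (p : G)) '' (H₀ : Set P) := rfl
  have hHfin : Finite H := by
    have : ((H : Set G)).Finite := by
      rw [hHset]
      exact (Set.toFinite _).image _
    exact this
  refine ⟨H, S, T, hHfin, ?_, ?_, hT, ?_⟩
  · -- the size of `A + H`
    have hHf : ((H : Set G)).Finite := hHfin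
    set HF : Finset G := hHf.toFinset with hHF
    have hHFc : (HF : Set G) = (H : Set G) := hHf.coe_toFinset
    have h1 : ((A : Set G) + (H : Set G)).ncard = (A + HF).card := by
      rw [← hHFc, ← Finset.coe_add, Set.ncard_coe_finset]
    have h2 : (DG + HF).card = ((D : Set P) + (H₀ : Set P)).ncard := by
      have h3 : ((DG + HF : Finset G) : Set G) =
          (fun p : P => (p : G)) '' ((D : Set P) + (H₀ : Set P)) := by
        rw [Finset.coe_add, hHFc, hHset, hDG, Finset.coe_image]
        exact (Set.image_add P.subtype).symm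
      rw [← Set.ncard_coe_finset, h3, Set.ncard_image_of_injective _ hinj]
    have h4 : ((A + DG).card : ℝ) ≤ K ^ 3 * A.card := by
      have h5 : A + DG ⊆ (2 : ℕ) • A - (1 : ℕ) • A := by
        intro x hx
        obtain ⟨a, ha, z, hz, rfl⟩ := Finset.mem_add.1 hx
        obtain ⟨b, hb, c, hc, rfl⟩ := Finset.mem_sub.1 (hDGsub hz)
        rw [two_nsmul, one_nsmul]
        exact Finset.mem_sub.2 ⟨a + b, Finset.add_mem_add ha hb, c, hc, by abel⟩
      have h6 := plu hA hK 2 1
      refine le_trans ?_ h6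
      exact_mod_cast Finset.card_le_card h5
    have h5 : ((A + HF).card : ℝ) * DG.card ≤ (A + DG).card * (DG + HF).card := by
      exact_mod_cast Finset.ruzsa_triangle_inequality_add_add_add A DG HF
    rw [h1]
    rw [h2, hDGcard] at h5
    have h6 : ((A + HF).card : ℝ) * D.card ≤
        (K ^ 3 * (2 * K ^ 5) ^ (4 * 10 ^ 8 / η) * A.card) * D.card := by
      refine h5.trans ?_
      calc ((A + DG).card : ℝ) * (((D : Set P) + (H₀ : Set P)).ncard : ℝ) ≤
            (K ^ 3 * A.card) * ((2 * K ^ 5) ^ (4 * 10 ^ 8 / η) * D.card) :=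
            mul_le_mul h4 hH1 (by positivity) (by positivity)
        _ = _ := by ring
    have h7 := le_of_mul_le_mul_right h6 hDpos
    refine h7.trans ?_
    apply mul_le_mul_of_nonneg_right _ hApos.le
    have h2K : (1 : ℝ) ≤ 2 * K := by linarith
    have h2K0 : (0 : ℝ) < 2 * K := by linarith
    have h8 : (2 * K ^ 5 : ℝ) ≤ (2 * K) ^ (5 : ℝ) := by
      have : (2 * K) ^ (5 : ℝ) = (2 * K) ^ (5 : ℕ) := by
        rw [← Real.rpow_natCast]; norm_num
      rw [this, mul_pow]
      apply mul_le_mul_of_nonneg_right (by norm_num) (by positivity)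
    have h9 : (2 * K ^ 5 : ℝ) ^ (4 * 10 ^ 8 / η) ≤ (2 * K) ^ (5 * (4 * 10 ^ 8 / η)) := by
      rw [Real.rpow_mul h2K0.le]
      exact Real.rpow_le_rpow (by positivity) h8 (by positivity)
    have h10 : K ^ 3 ≤ (2 * K) ^ (3 : ℝ) := by
      have : (2 * K) ^ (3 : ℝ) = (2 * K) ^ (3 : ℕ) := by
        rw [← Real.rpow_natCast]; norm_num
      rw [this]
      exact pow_le_pow_left₀ (by linarith) (by linarith) 3
    calc K ^ 3 * (2 * K ^ 5 : ℝ) ^ (4 * 10 ^ 8 / η) ≤
          (2 * K) ^ (3 : ℝ) * (2 * K) ^ (5 * (4 * 10 ^ 8 / η)) :=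
          mul_le_mul h10 h9 (by positivity) (by positivity)
      _ = (2 * K) ^ (3 + 5 * (4 * 10 ^ 8 / η)) := (Real.rpow_add h2K0 _ _).symm
      _ ≤ (2 * K) ^ (10 ^ 11 / η) := by
          apply Real.rpow_le_rpow_of_exponent_le h2K
          rw [le_div_iff₀ hη0]
          have e : (3 + 5 * (4 * 10 ^ 8 / η)) * η = 3 * η + 2 * 10 ^ 9 := by
            field_simp
            ring
          rw [e]
          linarith
  · -- the rank
    have hcard : (S.card : ℝ) ≤ SP.card + r := by
      have h6 : S.card ≤ SP.card + r := by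
        refine (Finset.card_union_le _ _).trans ?_
        have h7 := Finset.card_image_le (s := (Finset.univ : Finset (Fin r)))
          (f := fun i : Fin r => θ (Pi.single i 1))
        have h8 := Finset.card_image_le (s := SP) (f := fun p : P => (p : G))
        rw [Finset.card_univ, Fintype.card_fin] at h7
        omega
      exact_mod_cast h6
    have hlam0 : 0 < Real.log (2 * K ^ 5) := Real.log_pos (by linarith)
    have hlam : Real.log (2 * K ^ 5) ≤ 5 * κ := by
      rw [hκ, ← Real.log_rpow (by linarith)]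
      apply Real.log_le_log (by positivity)
      have : (2 * K) ^ (5 : ℝ) = (2 * K) ^ (5 : ℕ) := by
        rw [← Real.rpow_natCast]; norm_num
      rw [this, mul_pow]
      apply mul_le_mul_of_nonneg_right (by norm_num) (by positivity)
    refine num_rank hκ69 hη0 hη1 hlp hlam0 hlam hS1
      (LL := Real.log Λ) (LT := Real.log T.card) ?_ ?_ ?_ hr hcard
    · rw [Real.log_mul (by positivity) (by positivity), Real.log_mul (by positivity) hTpos.ne']
      linarith
    · rw [hΛ, Real.log_exp]
    · have h1 : Real.log T.card ≤ Real.log ((2 * K) ^ (30000 / η)) := Real.log_le_log hTpos hT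
      rwa [Real.log_rpow (by linarith), ← hκ] at h1
  · -- the cover
    intro a ha
    obtain ⟨t, ht, v, hv, h, hh, e⟩ := hcov a ha
    obtain ⟨o, ho, hxo⟩ := hgen ⟨h, hh⟩
    refine ⟨t, ht, (o : G), ?_, ?_⟩
    · obtain ⟨k, hk0, hkp, hko⟩ := ho
      refine ⟨k, hk0, hkp, ?_⟩
      have := congrArg (fun z : P => (z : G)) hko
      simpa using this
    have e1 : a - t - (o : G) = (h - (o : G)) + θ v := by rw [e]; abel
    rw [e1]
    refine add_mem ?_ ?_
    · have h2 : h - (o : G) ∈ (H₀ ⊔ AddSubgroup.closure (SP : Set P)).map P.subtype :=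
        ⟨⟨h, hh⟩ - o, hxo, rfl⟩
      rw [AddSubgroup.map_sup, AddMonoidHom.map_closure] at h2
      have h3 : H₀.map P.subtype ⊔ AddSubgroup.closure (P.subtype '' (SP : Set P)) ≤
          H ⊔ AddSubgroup.closure (S : Set G) := by
        apply sup_le_sup_left
        apply AddSubgroup.closure_mono
        rw [hSdef, Finset.coe_union, Finset.coe_image]
        exact Set.subset_union_left
      exact h3 h2
    · have hθ : θ v = ∑ i, v i • θ (Pi.single i 1) := by
        conv_lhs => rw [← Finset.univ_sum_single v]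
        rw [map_sum]
        refine Finset.sum_congr rfl fun i _ => ?_
        rw [← map_zsmul]
        congr 1
        funext k
        by_cases hk : k = i
        · subst hk; simp
        · simp [hk]
      rw [hθ]
      refine (AddSubgroup.closure (S : Set G)).sum_mem (fun i _ => ?_) |> fun h =>
        (le_sup_right : AddSubgroup.closure (S : Set G) ≤ _) h
      refine AddSubgroup.zsmul_mem _ (AddSubgroup.subset_closure ?_) _
      rw [Finset.mem_coe, hSdef, Finset.mem_union]
      exact Or.inr (Finset.mem_image.2 ⟨i, Finset.mem_univ _, rfl⟩)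

end Pool.Agent.N498.WM
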